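import Pool.Agent.Lib.MP_3885fd_co.Example

/-! The lattice points of the dilates of the example polytope. -/

set_option autoImplicit false

open scoped Pointwise

namespace Pool.Agent.Lib.MP_3885fd_co

/-- the inequalities describing the cone over the polytope -/
def Ineq (m : ℝ) (x : Fin 6 → ℝ) : Prop :=
  0 ≤ x 1 ∧ 0 ≤ x 1 + 2 * x 2 ∧ 0 ≤ x 1 + 2 * x 3 ∧ 0 ≤ x 1 + 2 * x 4 ∧ 0 ≤ x 1 + 2 * x 0 ∧
    x 1 + 2 * x 0 ≤ 2 * (m - 2 * x 1 - x 2 - x 3 - x 4) ∧ 0 ≤ x 5 ∧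
    x 5 ≤ m - 2 * x 1 - x 2 - x 3 - x 4

theorem convex_ineq : Convex ℝ {x : Fin 6 → ℝ | Ineq 1 x} := by
  intro x hx y hy a b ha hb hab
  simp only [Set.mem_ofPred_eq, Ineq, Pi.add_apply, Pi.smul_apply, smul_eq_mul] at hx hy ⊢
  obtain ⟨x1, x2, x3, x4, x5, x6, x7, x8⟩ := hx
  obtain ⟨y1, y2, y3, y4, y5, y6, y7, y8⟩ := hy
  refine ⟨?_, ?_, ?_, ?_, ?_, ?_, ?_, ?_⟩
  · nlinarith [mul_nonneg ha x1, mul_nonneg hb y1]
  · nlinarith [mul_nonneg ha x2, mul_nonneg hb y2]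
  · nlinarith [mul_nonneg ha x3, mul_nonneg hb y3]
  · nlinarith [mul_nonneg ha x4, mul_nonneg hb y4]
  · nlinarith [mul_nonneg ha x5, mul_nonneg hb y5]
  · nlinarith [mul_nonneg ha (sub_nonneg.2 x6), mul_nonneg hb (sub_nonneg.2 y6)]
  · nlinarith [mul_nonneg ha x7, mul_nonneg hb y7]
  · nlinarith [mul_nonneg ha (sub_nonneg.2 x8), mul_nonneg hb (sub_nonneg.2 y8)]

theorem ineq_pt (i : Fin 8) : Ineq 1 (toReal (pt i)) := by
  fin_cases i <;> simp [Ineq, pt, toReal] <;> norm_num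

theorem ineq_of_mem_body {x : Fin 6 → ℝ} (hx : x ∈ ex.body) : Ineq 1 x := by
  have : ex.body ⊆ {x : Fin 6 → ℝ | Ineq 1 x} := by
    refine convexHull_min ?_ convex_ineq
    rintro _ ⟨v, hv, rfl⟩
    have hv' : v ∈ (Finset.univ.image pt : Finset (Fin 6 → ℤ)) := hv
    simp only [Finset.mem_image, Finset.mem_univ, true_and] at hv'
    obtain ⟨i, rfl⟩ := hv'
    exact ineq_pt i
  exact this hx

theorem ineq_of_mem_smul_body {m : ℝ} (hm : 0 ≤ m) {x : Fin 6 → ℝ} (hx : x ∈ m • ex.body) :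
    Ineq m x := by
  obtain ⟨p, hp, rfl⟩ := hx
  obtain ⟨h1, h2, h3, h4, h5, h6, h7, h8⟩ := ineq_of_mem_body hp
  simp only [Ineq, Pi.smul_apply, smul_eq_mul]
  refine ⟨?_, ?_, ?_, ?_, ?_, ?_, ?_, ?_⟩
  · nlinarith [mul_nonneg hm h1]
  · nlinarith [mul_nonneg hm h2]
  · nlinarith [mul_nonneg hm h3]
  · nlinarith [mul_nonneg hm h4]
  · nlinarith [mul_nonneg hm h5]
  · nlinarith [mul_nonneg hm (sub_nonneg.2 h6)]
  · nlinarith [mul_nonneg hm h7]
  · nlinarith [mul_nonneg hm (sub_nonneg.2 h8)]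

theorem sum_mem_smul_body (w : Fin 8 → ℝ) (hw : ∀ i, 0 ≤ w i) :
    (∑ i, w i • toReal (pt i)) ∈ (∑ i, w i) • ex.body := by
  have hmem : ∀ i, toReal (pt i) ∈ ex.body := fun i =>
    subset_convexHull ℝ _ ⟨pt i, by
      change pt i ∈ (Finset.univ.image pt : Finset (Fin 6 → ℤ))
      simp, rfl⟩
  have hconv : Convex ℝ ex.body := convex_convexHull ℝ _
  rcases (Finset.sum_nonneg fun i (_ : i ∈ Finset.univ) => hw i).eq_or_lt with h | h
  · have h0 : ∀ i, w i = 0 := fun i =>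
      (Finset.sum_eq_zero_iff_of_nonneg (fun i _ => hw i)).1 h.symm i (Finset.mem_univ i)
    refine ⟨toReal (pt 0), hmem 0, ?_⟩
    simp [h0]
  · refine ⟨∑ i, (w i / ∑ j, w j) • toReal (pt i), ?_, ?_⟩
    · refine hconv.sum_mem (fun i _ => div_nonneg (hw i) h.le) ?_ (fun i _ => hmem i)
      rw [← Finset.sum_div, div_self h.ne']
    · change (∑ j, w j) • ∑ i, (w i / ∑ j, w j) • toReal (pt i) = _
      rw [Finset.smul_sum]
      refine Finset.sum_congr rfl fun i _ => ?_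
      rw [smul_smul, mul_div_cancel₀ _ h.ne']

theorem mem_smul_body_of_ineq {m : ℝ} {x : Fin 6 → ℝ} (hx : Ineq m x) : x ∈ m • ex.body := by
  obtain ⟨h1, h2, h3, h4, h5, h6, h7, h8⟩ := hx
  rcases le_total (x 1 / 2 + x 0) (x 5) with h | h
  · let w : Fin 8 → ℝ := ![m - 2 * x 1 - x 2 - x 3 - x 4 - x 5, 0, x 5 - (x 1 / 2 + x 0),
      x 1 / 2 + x 0, x 1 / 2, x 1 / 2 + x 2, x 1 / 2 + x 3, x 1 / 2 + x 4]
    have hw : ∀ i, 0 ≤ w i := by
      intro i
      fin_cases i <;> simp [w] <;> linarith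
    have h := sum_mem_smul_body w hw
    have e1 : ∑ i, w i = m := by
      simp [w, Fin.sum_univ_succ]
      ring
    have e2 : ∑ i, w i • toReal (pt i) = x := by
      ext j
      simp only [Finset.sum_apply, Pi.smul_apply, smul_eq_mul]
      fin_cases j <;> simp [w, Fin.sum_univ_succ, pt, toReal]
    rwa [e1, e2] at h
  · let w : Fin 8 → ℝ := ![m - 2 * x 1 - x 2 - x 3 - x 4 - (x 1 / 2 + x 0),
      (x 1 / 2 + x 0) - x 5, 0, x 5, x 1 / 2, x 1 / 2 + x 2, x 1 / 2 + x 3, x 1 / 2 + x 4]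
    have hw : ∀ i, 0 ≤ w i := by
      intro i
      fin_cases i <;> simp [w] <;> linarith
    have h := sum_mem_smul_body w hw
    have e1 : ∑ i, w i = m := by
      simp [w, Fin.sum_univ_succ]
      ring
    have e2 : ∑ i, w i • toReal (pt i) = x := by
      ext j
      simp only [Finset.sum_apply, Pi.smul_apply, smul_eq_mul]
      fin_cases j <;> simp [w, Fin.sum_univ_succ, pt, toReal]
      ring
    rwa [e1, e2] at h

/-- the integral form of the inequalities -/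
def IneqZ (m : ℕ) (x : Fin 6 → ℤ) : Prop :=
  0 ≤ x 1 ∧ 0 ≤ x 1 + 2 * x 2 ∧ 0 ≤ x 1 + 2 * x 3 ∧ 0 ≤ x 1 + 2 * x 4 ∧ 0 ≤ x 1 + 2 * x 0 ∧
    x 1 + 2 * x 0 ≤ 2 * (m - 2 * x 1 - x 2 - x 3 - x 4) ∧ 0 ≤ x 5 ∧
    x 5 ≤ m - 2 * x 1 - x 2 - x 3 - x 4

theorem mem_smul_body_iff (m : ℕ) (x : Fin 6 → ℤ) :
    toReal x ∈ (m : ℝ) • ex.body ↔ IneqZ m x := by
  have key : Ineq (m : ℝ) (toReal x) ↔ IneqZ m x := by
    simp only [Ineq, IneqZ, toReal]
    constructor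
    · rintro ⟨h1, h2, h3, h4, h5, h6, h7, h8⟩
      exact ⟨by exact_mod_cast h1, by exact_mod_cast h2, by exact_mod_cast h3,
        by exact_mod_cast h4, by exact_mod_cast h5, by exact_mod_cast h6, by exact_mod_cast h7,
        by exact_mod_cast h8⟩
    · rintro ⟨h1, h2, h3, h4, h5, h6, h7, h8⟩
      exact ⟨by exact_mod_cast h1, by exact_mod_cast h2, by exact_mod_cast h3,
        by exact_mod_cast h4, by exact_mod_cast h5, by exact_mod_cast h6, by exact_mod_cast h7,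
        by exact_mod_cast h8⟩
  rw [← key]
  exact ⟨ineq_of_mem_smul_body (Nat.cast_nonneg m), mem_smul_body_of_ineq⟩

theorem fixedPoints_one (m : ℕ) (x : Fin 6 → ℤ) : x ∈ ex.fixedPoints m 1 ↔ IneqZ m x := by
  rw [InvariantLatticePolytope.fixedPoints, Set.mem_ofPred_eq, mem_smul_body_iff]
  have : ex.dilatedAct m 1 x = x := by
    simp [InvariantLatticePolytope.dilatedAct, ex, AffineEquiv.one_def]
  simp [this]

theorem fixedPoints_neg_one (m : ℕ) (x : Fin 6 → ℤ) :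
    x ∈ ex.fixedPoints m (-1) ↔ IneqZ m x ∧ 2 * x 0 + 3 * x 1 + x 2 + x 3 + x 4 = m := by
  rw [InvariantLatticePolytope.fixedPoints, Set.mem_ofPred_eq, mem_smul_body_iff]
  have h : ex.dilatedAct m (-1) x = ![m - x 0 - 3 * x 1 - x 2 - x 3 - x 4, x 1, x 2, x 3, x 4, x 5] := by
    have h1 : ex.act (-1) = tau := exAct_neg_one
    rw [InvariantLatticePolytope.dilatedAct, h1, tau_linear, lin_apply, tau_apply]
    ext i
    fin_cases i <;> simp
    ring
  rw [h]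
  have : (![(m : ℤ) - x 0 - 3 * x 1 - x 2 - x 3 - x 4, x 1, x 2, x 3, x 4, x 5] = x) ↔
      2 * x 0 + 3 * x 1 + x 2 + x 3 + x 4 = m := by
    constructor
    · intro h
      have := congrFun h 0
      simp at this
      omega
    · intro h
      ext i
      fin_cases i <;> simp
      omega
  rw [this]

end Pool.Agent.Lib.MP_3885fd_co
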