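import Pool.Agent.Lib.MP_3885fd_co.GS
import Pool.Agent.Lib.MP_3885fd_co.Membership

/-! Counting the lattice points of the dilates of the example polytope. -/

set_option autoImplicit false

open PowerSeries

namespace Pool.Agent.Lib.MP_3885fd_co

/-- all lattice points of the cone -/
abbrev Cone1 : Type := {p : ℕ × (Fin 6 → ℤ) // IneqZ p.1 p.2}

/-- the fixed lattice points of the cone -/
abbrev Cone2 : Type := {p : ℕ × (Fin 6 → ℤ) //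
  IneqZ p.1 p.2 ∧ 2 * p.2 0 + 3 * p.2 1 + p.2 2 + p.2 3 + p.2 4 = p.1}

/-- seven free natural parameters -/
abbrev N4 : Type := ℕ × ℕ × ℕ × ℕ
/-- seven free natural parameters -/
abbrev N7 : Type := (ℕ × ℕ × ℕ) × N4
/-- six free natural parameters, the first two of weight two -/
abbrev Q6 : Type := (ℕ × ℕ) × N4

/-- weight -/
def w4 (p : N4) : ℕ := p.1 + (p.2.1 + (p.2.2.1 + p.2.2.2))
/-- weight -/
def w7 (p : N7) : ℕ := (p.1.1 + (p.1.2.1 + p.1.2.2)) + w4 p.2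
/-- weight -/
def w6 (p : Q6) : ℕ := (2 * p.1.1 + 2 * p.1.2) + w4 p.2

/-- abbreviation for the geometric series -/
noncomputable abbrev S : PowerSeries ℤ := PowerSeries.mk 1

theorem gs4 : HasGS w4 (S * (S * (S * S))) :=
  HasGS.nat.prod (HasGS.nat.prod (HasGS.nat.prod HasGS.nat))

theorem gs7 : HasGS w7 ((S * (S * S)) * (S * (S * (S * S)))) :=
  (HasGS.nat.prod (HasGS.nat.prod HasGS.nat)).prod gs4

theorem gs6 {E : PowerSeries ℤ} (hE : HasGS (fun n : ℕ => 2 * n) E) :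
    HasGS w6 ((E * E) * (S * (S * (S * S)))) :=
  (hE.prod hE).prod gs4

/-- the parametrisation of the lattice points of the cone -/
def phi1 : N7 ⊕ ((Unit × N7) ⊕ ((Unit × N7) ⊕ (Unit × N7))) → ℕ × (Fin 6 → ℤ)
  | Sum.inl ((a, b, c), (n1, n2, n3, n4)) =>
      (a + b + c + n1 + n2 + n3 + n4,
        ![(c : ℤ) - n1, 2 * n1, (n2 : ℤ) - n1, (n3 : ℤ) - n1, (n4 : ℤ) - n1, (b : ℤ) + c])
  | Sum.inr (Sum.inl ((), ((a, b, c), (n1, n2, n3, n4)))) =>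
      (a + b + c + n1 + n2 + n3 + n4 + 1,
        ![(b : ℤ) + c + 1 - n1, 2 * n1, (n2 : ℤ) - n1, (n3 : ℤ) - n1, (n4 : ℤ) - n1, (c : ℤ)])
  | Sum.inr (Sum.inr (Sum.inl ((), ((a, b, c), (n1, n2, n3, n4))))) =>
      (a + b + c + n1 + n2 + n3 + n4 + 3,
        ![(b : ℤ) + c - n1, 2 * n1 + 1, (n2 : ℤ) - n1, (n3 : ℤ) - n1, (n4 : ℤ) - n1, (c : ℤ)])
  | Sum.inr (Sum.inr (Sum.inr ((), ((a, b, c), (n1, n2, n3, n4))))) =>
      (a + b + c + n1 + n2 + n3 + n4 + 3,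
        ![(c : ℤ) - n1, 2 * n1 + 1, (n2 : ℤ) - n1, (n3 : ℤ) - n1, (n4 : ℤ) - n1, (b : ℤ) + c + 1])

theorem phi1_mem (q) : IneqZ (phi1 q).1 (phi1 q).2 := by
  rcases q with ⟨⟨a, b, c⟩, n1, n2, n3, n4⟩ | ⟨⟨⟩, ⟨a, b, c⟩, n1, n2, n3, n4⟩ |
    ⟨⟨⟩, ⟨a, b, c⟩, n1, n2, n3, n4⟩ | ⟨⟨⟩, ⟨a, b, c⟩, n1, n2, n3, n4⟩ <;>
  · simp only [phi1, IneqZ]
    simp
    omega

theorem phi1_inj : Function.Injective phi1 := by
  intro p q h
  rcases p with ⟨⟨a, b, c⟩, n1, n2, n3, n4⟩ | ⟨⟨⟩, ⟨a, b, c⟩, n1, n2, n3, n4⟩ |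
    ⟨⟨⟩, ⟨a, b, c⟩, n1, n2, n3, n4⟩ | ⟨⟨⟩, ⟨a, b, c⟩, n1, n2, n3, n4⟩ <;>
  rcases q with ⟨⟨a', b', c'⟩, n1', n2', n3', n4'⟩ | ⟨⟨⟩, ⟨a', b', c'⟩, n1', n2', n3', n4'⟩ |
    ⟨⟨⟩, ⟨a', b', c'⟩, n1', n2', n3', n4'⟩ | ⟨⟨⟩, ⟨a', b', c'⟩, n1', n2', n3', n4'⟩ <;>
  · simp only [phi1, Prod.mk.injEq] at h
    obtain ⟨h0, h⟩ := h
    have e0 := congrFun h 0
    have e1 := congrFun h 1
    have e2 := congrFun h 2
    have e3 := congrFun h 3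
    have e4 := congrFun h 4
    have e5 := congrFun h 5
    simp at e0 e1 e2 e3 e4 e5
    first
    | (exfalso; omega)
    | (simp only [Sum.inl.injEq, Sum.inr.injEq, Prod.mk.injEq, true_and]; omega)

theorem phi1_surj (p : ℕ × (Fin 6 → ℤ)) (hp : IneqZ p.1 p.2) : ∃ q, phi1 q = p := by
  obtain ⟨m, x⟩ := p
  obtain ⟨h1, h2, h3, h4, h5, h6, h7, h8⟩ := hp
  simp only at h1 h2 h3 h4 h5 h6 h7 h8
  rcases Int.even_or_odd' (x 1) with ⟨k, hk | hk⟩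
  · rcases le_or_gt (k + x 0) (x 5) with hle | hlt
    · refine ⟨Sum.inl ((((m : ℤ) - 2 * x 1 - x 2 - x 3 - x 4 - x 5).toNat,
        (x 5 - (k + x 0)).toNat, (k + x 0).toNat), (k.toNat, (k + x 2).toNat, (k + x 3).toNat,
        (k + x 4).toNat)), ?_⟩
      simp only [phi1, Prod.mk.injEq]
      refine ⟨by omega, ?_⟩
      ext i
      fin_cases i <;> simp <;> omega
    · refine ⟨Sum.inr (Sum.inl ((), (((m : ℤ) - 2 * x 1 - x 2 - x 3 - x 4 - (k + x 0)).toNat,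
        (k + x 0 - x 5 - 1).toNat, (x 5).toNat), (k.toNat, (k + x 2).toNat, (k + x 3).toNat,
        (k + x 4).toNat))), ?_⟩
      simp only [phi1, Prod.mk.injEq]
      refine ⟨by omega, ?_⟩
      ext i
      fin_cases i <;> simp <;> omega
  · rcases le_or_gt (x 5) (k + x 0) with hle | hlt
    · refine ⟨Sum.inr (Sum.inr (Sum.inl ((),
        (((m : ℤ) - 2 * x 1 - x 2 - x 3 - x 4 - 1 - (k + x 0)).toNat,
        (k + x 0 - x 5).toNat, (x 5).toNat), (k.toNat, (k + x 2).toNat, (k + x 3).toNat,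
        (k + x 4).toNat)))), ?_⟩
      simp only [phi1, Prod.mk.injEq]
      refine ⟨by omega, ?_⟩
      ext i
      fin_cases i <;> simp <;> omega
    · refine ⟨Sum.inr (Sum.inr (Sum.inr ((),
        (((m : ℤ) - 2 * x 1 - x 2 - x 3 - x 4 - x 5).toNat,
        (x 5 - (k + x 0) - 1).toNat, (k + x 0).toNat), (k.toNat, (k + x 2).toNat, (k + x 3).toNat,
        (k + x 4).toNat)))), ?_⟩
      simp only [phi1, Prod.mk.injEq]
      refine ⟨by omega, ?_⟩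
      ext i
      fin_cases i <;> simp <;> omega

/-- the parametrisation of the fixed lattice points of the cone -/
def phi2 : Q6 ⊕ ((Unit × Q6) ⊕ ((Unit × Q6) ⊕ (Unit × Q6))) → ℕ × (Fin 6 → ℤ)
  | Sum.inl ((a, b), (n1, n2, n3, n4)) =>
      (2 * a + 2 * b + n1 + n2 + n3 + n4,
        ![(a : ℤ) + b - n1, 2 * n1, (n2 : ℤ) - n1, (n3 : ℤ) - n1, (n4 : ℤ) - n1, 2 * (b : ℤ)])
  | Sum.inr (Sum.inl ((), ((a, b), (n1, n2, n3, n4)))) =>
      (2 * a + 2 * b + n1 + n2 + n3 + n4 + 2,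
        ![(a : ℤ) + b + 1 - n1, 2 * n1, (n2 : ℤ) - n1, (n3 : ℤ) - n1, (n4 : ℤ) - n1,
          2 * (b : ℤ) + 1])
  | Sum.inr (Sum.inr (Sum.inl ((), ((a, b), (n1, n2, n3, n4))))) =>
      (2 * a + 2 * b + n1 + n2 + n3 + n4 + 3,
        ![(a : ℤ) + b - n1, 2 * n1 + 1, (n2 : ℤ) - n1, (n3 : ℤ) - n1, (n4 : ℤ) - n1, 2 * (b : ℤ)])
  | Sum.inr (Sum.inr (Sum.inr ((), ((a, b), (n1, n2, n3, n4))))) =>
      (2 * a + 2 * b + n1 + n2 + n3 + n4 + 3,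
        ![(a : ℤ) + b - n1, 2 * n1 + 1, (n2 : ℤ) - n1, (n3 : ℤ) - n1, (n4 : ℤ) - n1,
          2 * (b : ℤ) + 1])

theorem phi2_mem (q) : IneqZ (phi2 q).1 (phi2 q).2 ∧ 2 * (phi2 q).2 0 + 3 * (phi2 q).2 1 +
    (phi2 q).2 2 + (phi2 q).2 3 + (phi2 q).2 4 = (phi2 q).1 := by
  rcases q with ⟨⟨a, b⟩, n1, n2, n3, n4⟩ | ⟨⟨⟩, ⟨a, b⟩, n1, n2, n3, n4⟩ |
    ⟨⟨⟩, ⟨a, b⟩, n1, n2, n3, n4⟩ | ⟨⟨⟩, ⟨a, b⟩, n1, n2, n3, n4⟩ <;>
  · simp only [phi2, IneqZ]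
    simp
    omega

theorem phi2_inj : Function.Injective phi2 := by
  intro p q h
  rcases p with ⟨⟨a, b⟩, n1, n2, n3, n4⟩ | ⟨⟨⟩, ⟨a, b⟩, n1, n2, n3, n4⟩ |
    ⟨⟨⟩, ⟨a, b⟩, n1, n2, n3, n4⟩ | ⟨⟨⟩, ⟨a, b⟩, n1, n2, n3, n4⟩ <;>
  rcases q with ⟨⟨a', b'⟩, n1', n2', n3', n4'⟩ | ⟨⟨⟩, ⟨a', b'⟩, n1', n2', n3', n4'⟩ |
    ⟨⟨⟩, ⟨a', b'⟩, n1', n2', n3', n4'⟩ | ⟨⟨⟩, ⟨a', b'⟩, n1', n2', n3', n4'⟩ <;>
  · simp only [phi2, Prod.mk.injEq] at h
    obtain ⟨h0, h⟩ := h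
    have e0 := congrFun h 0
    have e1 := congrFun h 1
    have e2 := congrFun h 2
    have e3 := congrFun h 3
    have e4 := congrFun h 4
    have e5 := congrFun h 5
    simp at e0 e1 e2 e3 e4 e5
    first
    | (exfalso; omega)
    | (simp only [Sum.inl.injEq, Sum.inr.injEq, Prod.mk.injEq, true_and]; omega)

theorem phi2_surj (p : ℕ × (Fin 6 → ℤ)) (hp : IneqZ p.1 p.2 ∧
    2 * p.2 0 + 3 * p.2 1 + p.2 2 + p.2 3 + p.2 4 = p.1) : ∃ q, phi2 q = p := by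
  obtain ⟨m, x⟩ := p
  obtain ⟨⟨h1, h2, h3, h4, h5, h6, h7, h8⟩, h9⟩ := hp
  simp only at h1 h2 h3 h4 h5 h6 h7 h8 h9
  rcases Int.even_or_odd' (x 1) with ⟨k, hk | hk⟩ <;>
    rcases Int.even_or_odd' (x 5) with ⟨l, hl | hl⟩
  · refine ⟨Sum.inl (((k + x 0 - l).toNat, l.toNat), (k.toNat, (k + x 2).toNat, (k + x 3).toNat,
        (k + x 4).toNat)), ?_⟩
    simp only [phi2, Prod.mk.injEq]
    refine ⟨by omega, ?_⟩
    ext i
    fin_cases i <;> simp <;> omega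
  · refine ⟨Sum.inr (Sum.inl ((), ((k + x 0 - 1 - l).toNat, l.toNat),
        (k.toNat, (k + x 2).toNat, (k + x 3).toNat, (k + x 4).toNat))), ?_⟩
    simp only [phi2, Prod.mk.injEq]
    refine ⟨by omega, ?_⟩
    ext i
    fin_cases i <;> simp <;> omega
  · refine ⟨Sum.inr (Sum.inr (Sum.inl ((), ((k + x 0 - l).toNat, l.toNat),
        (k.toNat, (k + x 2).toNat, (k + x 3).toNat, (k + x 4).toNat)))), ?_⟩
    simp only [phi2, Prod.mk.injEq]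
    refine ⟨by omega, ?_⟩
    ext i
    fin_cases i <;> simp <;> omega
  · refine ⟨Sum.inr (Sum.inr (Sum.inr ((), ((k + x 0 - l).toNat, l.toNat),
        (k.toNat, (k + x 2).toNat, (k + x 3).toNat, (k + x 4).toNat)))), ?_⟩
    simp only [phi2, Prod.mk.injEq]
    refine ⟨by omega, ?_⟩
    ext i
    fin_cases i <;> simp <;> omega

/-- `phi1` as an equivalence onto the lattice points of the cone -/
noncomputable def e1 : N7 ⊕ ((Unit × N7) ⊕ ((Unit × N7) ⊕ (Unit × N7))) ≃ Cone1 :=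
  Equiv.ofBijective (fun q => ⟨phi1 q, phi1_mem q⟩)
    ⟨fun _ _ h => phi1_inj (congrArg Subtype.val h),
      fun p => by
        obtain ⟨q, hq⟩ := phi1_surj p.1 p.2
        exact ⟨q, Subtype.ext hq⟩⟩

/-- `phi2` as an equivalence onto the fixed lattice points of the cone -/
noncomputable def e2 : Q6 ⊕ ((Unit × Q6) ⊕ ((Unit × Q6) ⊕ (Unit × Q6))) ≃ Cone2 :=
  Equiv.ofBijective (fun q => ⟨phi2 q, phi2_mem q⟩)
    ⟨fun _ _ h => phi2_inj (congrArg Subtype.val h),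
      fun p => by
        obtain ⟨q, hq⟩ := phi2_surj p.1 p.2
        exact ⟨q, Subtype.ext hq⟩⟩

theorem gs_cone1 : HasGS (fun p : Cone1 => p.1.1)
    ((S * (S * S)) * (S * (S * (S * S))) +
      ((X ^ 1 * ((S * (S * S)) * (S * (S * (S * S)))) +
        (X ^ 3 * ((S * (S * S)) * (S * (S * (S * S)))) +
          X ^ 3 * ((S * (S * S)) * (S * (S * (S * S)))))))) := by
  have h := gs7.sum (((HasGS.unit 1).prod gs7).sum
    (((HasGS.unit 3).prod gs7).sum ((HasGS.unit 3).prod gs7)))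
  refine h.equiv e1.symm ?_
  intro p
  obtain ⟨q, rfl⟩ := e1.surjective p
  rw [Equiv.symm_apply_apply]
  rcases q with ⟨⟨a, b, c⟩, n1, n2, n3, n4⟩ | ⟨⟨⟩, ⟨a, b, c⟩, n1, n2, n3, n4⟩ |
    ⟨⟨⟩, ⟨a, b, c⟩, n1, n2, n3, n4⟩ | ⟨⟨⟩, ⟨a, b, c⟩, n1, n2, n3, n4⟩ <;>
  · simp [e1, phi1, w7, w4]
    ring

theorem gs_cone2 {E : PowerSeries ℤ} (hE : HasGS (fun n : ℕ => 2 * n) E) :
    HasGS (fun p : Cone2 => p.1.1)
    ((E * E) * (S * (S * (S * S))) +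
      ((X ^ 2 * ((E * E) * (S * (S * (S * S)))) +
        (X ^ 3 * ((E * E) * (S * (S * (S * S)))) +
          X ^ 3 * ((E * E) * (S * (S * (S * S)))))))) := by
  have h := (gs6 hE).sum (((HasGS.unit 2).prod (gs6 hE)).sum
    (((HasGS.unit 3).prod (gs6 hE)).sum ((HasGS.unit 3).prod (gs6 hE))))
  refine h.equiv e2.symm ?_
  intro p
  obtain ⟨q, rfl⟩ := e2.surjective p
  rw [Equiv.symm_apply_apply]
  rcases q with ⟨⟨a, b⟩, n1, n2, n3, n4⟩ | ⟨⟨⟩, ⟨a, b⟩, n1, n2, n3, n4⟩ |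
    ⟨⟨⟩, ⟨a, b⟩, n1, n2, n3, n4⟩ | ⟨⟨⟩, ⟨a, b⟩, n1, n2, n3, n4⟩ <;>
  · simp [e2, phi2, w6, w4]
    ring

/-- the fixed points of the dilate, as elements of weight `m` -/
theorem chi_one (m : ℕ) : ex.chi m 1 = ((Nat.card {p : Cone1 // p.1.1 = m} : ℕ) : ℤ) := by
  rw [InvariantLatticePolytope.chi, ← Nat.card_coe_set_eq]
  congr 1
  refine Nat.card_congr
    { toFun := fun x => ⟨⟨(m, x.1), (fixedPoints_one m x.1).1 x.2⟩, rfl⟩
      invFun := fun p => ⟨p.1.1.2, (fixedPoints_one m _).2 (by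
        have h1 := p.1.2
        have h2 := p.2
        rw [h2] at h1
        exact h1)⟩
      left_inv := fun x => rfl
      right_inv := fun p => by
        obtain ⟨⟨⟨m', x⟩, h⟩, h'⟩ := p
        simp only at h'
        subst h'
        rfl }

theorem chi_neg_one (m : ℕ) : ex.chi m (-1) = ((Nat.card {p : Cone2 // p.1.1 = m} : ℕ) : ℤ) := by
  rw [InvariantLatticePolytope.chi, ← Nat.card_coe_set_eq]
  congr 1
  refine Nat.card_congr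
    { toFun := fun x => ⟨⟨(m, x.1), (fixedPoints_neg_one m x.1).1 x.2⟩, rfl⟩
      invFun := fun p => ⟨p.1.1.2, (fixedPoints_neg_one m _).2 (by
        have h1 := p.1.2
        have h2 := p.2
        rw [h2] at h1
        exact h1)⟩
      left_inv := fun x => rfl
      right_inv := fun p => by
        obtain ⟨⟨⟨m', x⟩, h⟩, h'⟩ := p
        simp only at h'
        subst h'
        rfl }

end Pool.Agent.Lib.MP_3885fd_co
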