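import Mathlib

/-! Equivariant Ehrhart theory of lattice polytopes: the equivariant `H*`-series. -/

set_option autoImplicit false

open scoped Pointwise

namespace Pool.Agent.Lib.MP_3885fd_co

/-- The inclusion of the lattice `ℤ^d` into `ℝ^d`. -/
def toReal {d : ℕ} (x : Fin d → ℤ) : Fin d → ℝ := fun i => (x i : ℝ)

/-- A `d`-dimensional lattice polytope `P` in `ℝ^d` (with affine lattice `ℤ^d`) together with an
action of the group `G` on the affine lattice `ℤ^d` by affine lattice automorphisms which maps `P`
to itself.  The polytope is the convex hull of the finite set `pts` of lattice points; `pts` is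
stable under `G`, and it affinely spans `ℝ^d`. -/
structure InvariantLatticePolytope (G : Type) [Group G] (d : ℕ) where
  /-- the action of `G` by affine automorphisms of the lattice -/
  act : G →* ((Fin d → ℤ) ≃ᵃ[ℤ] (Fin d → ℤ))
  /-- a finite set of lattice points whose convex hull is the polytope -/
  pts : Finset (Fin d → ℤ)
  /-- the set of points is `G`-stable -/
  stable : ∀ g : G, ∀ v ∈ pts, act g v ∈ pts
  /-- the polytope is full-dimensional -/
  fullDim : affineSpan ℝ (toReal '' (pts : Set (Fin d → ℤ))) = ⊤

namespace InvariantLatticePolytope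

variable {G : Type} [Group G] {d : ℕ}

/-- The polytope itself, as a subset of `ℝ^d`. -/
def body (P : InvariantLatticePolytope G d) : Set (Fin d → ℝ) :=
  convexHull ℝ (toReal '' (P.pts : Set (Fin d → ℤ)))

/-- The action of `g` on the lattice points of the dilate `mP`: if `g x = ρ(g) x + b` on `P` then
`g` acts on `mP` by `x ↦ ρ(g) x + m b`. -/
def dilatedAct (P : InvariantLatticePolytope G d) (m : ℕ) (g : G) (x : Fin d → ℤ) : Fin d → ℤ :=
  (P.act g).linear x + m • P.act g 0

/-- The lattice points of `mP` which are fixed by `g`. -/
def fixedPoints (P : InvariantLatticePolytope G d) (m : ℕ) (g : G) : Set (Fin d → ℤ) :=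
  {x | toReal x ∈ (m : ℝ) • P.body ∧ P.dilatedAct m g x = x}

/-- The permutation character of `G` on the lattice points of `mP`. -/
noncomputable def chi (P : InvariantLatticePolytope G d) (m : ℕ) (g : G) : ℤ :=
  ((P.fixedPoints m g).ncard : ℤ)

/-- The matrix of the linear part `ρ(g)` of the action of `g` on the lattice. -/
noncomputable def rho (P : InvariantLatticePolytope G d) (g : G) : Matrix (Fin d) (Fin d) ℤ :=
  LinearMap.toMatrix' ((P.act g).linear : (Fin d → ℤ) →ₗ[ℤ] (Fin d → ℤ))

/-- The equivariant `H*`-series evaluated at `g`, i.e. the power series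
`(1 - t) * det (I - t ρ(g)) * ∑ₘ χ_{mP}(g) t^m`
(`Matrix.charpolyRev M` is the polynomial `det (I - t M)`). -/
noncomputable def HStar (P : InvariantLatticePolytope G d) (g : G) : PowerSeries ℤ :=
  (((1 - Polynomial.X) * (P.rho g).charpolyRev : Polynomial ℤ) : PowerSeries ℤ) *
    PowerSeries.mk fun m => P.chi m g

/-- The `i`-th coefficient `H*_i` of the equivariant `H*`-series, as a function on `G`. -/
noncomputable def HStarCoeff (P : InvariantLatticePolytope G d) (i : ℕ) : G → ℤ :=
  fun g => PowerSeries.coeff i (P.HStar g)

/-- The equivariant `H*`-series is polynomial: only finitely many `H*_i` are nonzero. -/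
def HStarIsPolynomial (P : InvariantLatticePolytope G d) : Prop :=
  {i : ℕ | P.HStarCoeff i ≠ 0}.Finite

/-- `f` is the character of a (finite-dimensional, complex) representation of `G`. -/
def IsCharacter (f : G → ℤ) : Prop :=
  ∃ (n : ℕ) (σ : Representation ℂ G (Fin n → ℂ)),
    ∀ g : G, LinearMap.trace ℂ (Fin n → ℂ) (σ g) = (f g : ℂ)

/-- The equivariant `H*`-series is effective: every `H*_i` is the character of a genuine
representation of `G`. -/
def HStarIsEffective (P : InvariantLatticePolytope G d) : Prop :=
  ∀ i : ℕ, IsCharacter (P.HStarCoeff i)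

end InvariantLatticePolytope

end Pool.Agent.Lib.MP_3885fd_co
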