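import Pool.Agent.Lib.MP_3885fd_co.Defs

/-! The six-dimensional example: the four-fold pyramid over a unit square, with respect to a
lattice refined by one half-integral vector. -/

set_option autoImplicit false

open scoped Pointwise

namespace Pool.Agent.Lib.MP_3885fd_co

/-- the linear part of the involution -/
def lin : (Fin 6 → ℤ) →ₗ[ℤ] (Fin 6 → ℤ) where
  toFun x := ![-x 0 - 3 * x 1 - x 2 - x 3 - x 4, x 1, x 2, x 3, x 4, x 5]
  map_add' x y := by
    ext i
    fin_cases i <;> simp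
    ring
  map_smul' c x := by
    ext i
    fin_cases i <;> simp
    ring

theorem lin_apply (x : Fin 6 → ℤ) :
    lin x = ![-x 0 - 3 * x 1 - x 2 - x 3 - x 4, x 1, x 2, x 3, x 4, x 5] := rfl

theorem lin_lin (x : Fin 6 → ℤ) : lin (lin x) = x := by
  ext i
  fin_cases i <;> simp [lin_apply]
  ring

/-- the linear part of the involution, as a linear equivalence -/
def linEquiv : (Fin 6 → ℤ) ≃ₗ[ℤ] (Fin 6 → ℤ) :=
  LinearEquiv.ofInvolutive lin lin_lin

/-- the affine involution -/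
def tau : (Fin 6 → ℤ) ≃ᵃ[ℤ] (Fin 6 → ℤ) where
  toFun x := ![1 - x 0 - 3 * x 1 - x 2 - x 3 - x 4, x 1, x 2, x 3, x 4, x 5]
  invFun x := ![1 - x 0 - 3 * x 1 - x 2 - x 3 - x 4, x 1, x 2, x 3, x 4, x 5]
  left_inv x := by
    ext i
    fin_cases i <;> simp
    ring
  right_inv x := by
    ext i
    fin_cases i <;> simp
    ring
  linear := linEquiv
  map_vadd' p v := by
    ext i
    fin_cases i <;> simp [linEquiv, lin_apply]
    ring

theorem tau_apply (x : Fin 6 → ℤ) :
    tau x = ![1 - x 0 - 3 * x 1 - x 2 - x 3 - x 4, x 1, x 2, x 3, x 4, x 5] := rfl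

theorem tau_linear (x : Fin 6 → ℤ) : tau.linear x = lin x := rfl

theorem tau_mul_tau : tau * tau = 1 := by
  apply AffineEquiv.ext
  intro x
  rw [AffineEquiv.mul_def]
  ext i
  fin_cases i <;> simp [tau_apply]
  ring

/-- the action of the group of order two -/
def exAct : ℤˣ →* ((Fin 6 → ℤ) ≃ᵃ[ℤ] (Fin 6 → ℤ)) where
  toFun u := if u = 1 then 1 else tau
  map_one' := by simp
  map_mul' u v := by
    rcases Int.units_eq_one_or u with rfl | rfl <;> rcases Int.units_eq_one_or v with rfl | rfl <;>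
      simp [tau_mul_tau]

theorem exAct_one : exAct 1 = 1 := map_one _

theorem exAct_neg_one : exAct (-1) = tau := by
  simp [exAct]

/-- the eight lattice points -/
def pt : Fin 8 → Fin 6 → ℤ :=
  ![![0, 0, 0, 0, 0, 0], ![1, 0, 0, 0, 0, 0], ![0, 0, 0, 0, 0, 1], ![1, 0, 0, 0, 0, 1],
    ![-1, 2, -1, -1, -1, 0], ![0, 0, 1, 0, 0, 0], ![0, 0, 0, 1, 0, 0], ![0, 0, 0, 0, 1, 0]]

/-- the involution on the indices -/
def sw : Fin 8 → Fin 8 := ![1, 0, 3, 2, 4, 5, 6, 7]

theorem tau_pt (i : Fin 8) : tau (pt i) = pt (sw i) := by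
  rw [tau_apply]
  fin_cases i <;> (ext j; fin_cases j <;> simp [pt, sw])

theorem fullDim_aux :
    affineSpan ℝ (toReal '' ((Finset.univ.image pt : Finset (Fin 6 → ℤ)) : Set (Fin 6 → ℤ))) = ⊤ := by
  have h0 : ∀ i, toReal (pt i) ∈
      (toReal '' ((Finset.univ.image pt : Finset (Fin 6 → ℤ)) : Set (Fin 6 → ℤ))) := by
    intro i
    exact ⟨pt i, by simp, rfl⟩
  rw [AffineSubspace.affineSpan_eq_top_iff_vectorSpan_eq_top_of_nonempty ℝ _ _ ⟨_, h0 0⟩]
  set S := (toReal '' ((Finset.univ.image pt : Finset (Fin 6 → ℤ)) : Set (Fin 6 → ℤ)))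
  have h1 : ∀ i, toReal (pt i) - toReal (pt 0) ∈ vectorSpan ℝ S := fun i =>
    vsub_mem_vectorSpan ℝ (h0 i) (h0 0)
  rw [eq_top_iff]
  intro x _
  have hx : x = (x 0 + x 1 / 2) • (toReal (pt 1) - toReal (pt 0))
      + x 5 • (toReal (pt 2) - toReal (pt 0))
      + (x 1 / 2) • (toReal (pt 4) - toReal (pt 0))
      + (x 2 + x 1 / 2) • (toReal (pt 5) - toReal (pt 0))
      + (x 3 + x 1 / 2) • (toReal (pt 6) - toReal (pt 0))
      + (x 4 + x 1 / 2) • (toReal (pt 7) - toReal (pt 0)) := by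
    ext i
    fin_cases i <;> simp [pt, toReal]
  rw [hx]
  refine add_mem (add_mem (add_mem (add_mem (add_mem ?_ ?_) ?_) ?_) ?_) ?_ <;>
    exact Submodule.smul_mem _ _ (h1 _)

/-- the example -/
def ex : InvariantLatticePolytope ℤˣ 6 where
  act := exAct
  pts := Finset.univ.image pt
  stable g v hv := by
    simp only [Finset.mem_image, Finset.mem_univ, true_and] at hv ⊢
    obtain ⟨i, rfl⟩ := hv
    rcases Int.units_eq_one_or g with rfl | rfl
    · exact ⟨i, by rw [exAct_one]; rfl⟩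
    · exact ⟨sw i, by rw [exAct_neg_one, tau_pt]⟩
  fullDim := fullDim_aux

end Pool.Agent.Lib.MP_3885fd_co
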