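import Mathlib

/-! Counting by weight: generating series of weighted sets. -/

set_option autoImplicit false

namespace Pool.Agent.Lib.MP_3885fd_co

open PowerSeries

/-- `HasGS w F`: for every `m` the set of elements of weight `m` is finite and its cardinality is
the `m`-th coefficient of `F`. -/
def HasGS {α : Type*} (w : α → ℕ) (F : PowerSeries ℤ) : Prop :=
  ∀ m, Finite {a // w a = m} ∧ ((Nat.card {a // w a = m} : ℕ) : ℤ) = coeff m F

theorem HasGS.equiv {α β : Type*} {w : α → ℕ} {v : β → ℕ} {F : PowerSeries ℤ}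
    (h : HasGS w F) (e : β ≃ α) (hw : ∀ b, w (e b) = v b) : HasGS v F := by
  intro m
  obtain ⟨h1, h2⟩ := h m
  let e' : {b // v b = m} ≃ {a // w a = m} :=
    e.subtypeEquiv (fun b => by rw [hw b])
  refine ⟨Finite.of_equiv _ e'.symm, ?_⟩
  rw [Nat.card_congr e']
  exact h2

theorem HasGS.prod {α β : Type*} {w : α → ℕ} {v : β → ℕ} {F G : PowerSeries ℤ}
    (hF : HasGS w F) (hG : HasGS v G) :
    HasGS (fun p : α × β => w p.1 + v p.2) (F * G) := by
  intro m
  let e : {p : α × β // w p.1 + v p.2 = m} ≃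
      Σ ij : {ij : ℕ × ℕ // ij ∈ Finset.HasAntidiagonal.antidiagonal m},
        {a // w a = ij.1.1} × {b // v b = ij.1.2} :=
    { toFun := fun p => ⟨⟨(w p.1.1, v p.1.2), by simpa using p.2⟩,
        ⟨p.1.1, rfl⟩, ⟨p.1.2, rfl⟩⟩
      invFun := fun q => ⟨(q.2.1.1, q.2.2.1), by
        have h1 := q.2.1.2
        have h2 := q.2.2.2
        have h3 := q.1.2
        simp only [Finset.HasAntidiagonal.mem_antidiagonal] at h3
        simp only [h1, h2, h3]⟩
      left_inv := fun p => by simp
      right_inv := fun q => by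
        obtain ⟨⟨⟨i, j⟩, hij⟩, ⟨a, ha⟩, ⟨b, hb⟩⟩ := q
        simp only at ha hb
        subst ha
        subst hb
        rfl }
  have : ∀ ij : {ij : ℕ × ℕ // ij ∈ Finset.HasAntidiagonal.antidiagonal m},
      Finite ({a // w a = ij.1.1} × {b // v b = ij.1.2}) := fun ij => by
    have := (hF ij.1.1).1
    have := (hG ij.1.2).1
    infer_instance
  refine ⟨Finite.of_equiv _ e.symm, ?_⟩
  rw [Nat.card_congr e, Nat.card_sigma, PowerSeries.coeff_mul]
  push_cast
  rw [← Finset.sum_coe_sort (Finset.HasAntidiagonal.antidiagonal m)]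
  refine Finset.sum_congr rfl fun ij _ => ?_
  rw [Nat.card_prod]
  push_cast
  rw [(hF ij.1.1).2, (hG ij.1.2).2]

theorem HasGS.sum {α β : Type*} {w : α → ℕ} {v : β → ℕ} {F G : PowerSeries ℤ}
    (hF : HasGS w F) (hG : HasGS v G) :
    HasGS (Sum.elim w v) (F + G) := by
  intro m
  let e : {p : α ⊕ β // Sum.elim w v p = m} ≃ {a // w a = m} ⊕ {b // v b = m} :=
    { toFun := fun p => match p with
        | ⟨Sum.inl a, h⟩ => Sum.inl ⟨a, h⟩
        | ⟨Sum.inr b, h⟩ => Sum.inr ⟨b, h⟩
      invFun := fun q => match q with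
        | Sum.inl a => ⟨Sum.inl a.1, a.2⟩
        | Sum.inr b => ⟨Sum.inr b.1, b.2⟩
      left_inv := fun p => by
        rcases p with ⟨a | b, h⟩ <;> rfl
      right_inv := fun q => by
        rcases q with a | b <;> rfl }
  have := (hF m).1
  have := (hG m).1
  refine ⟨Finite.of_equiv _ e.symm, ?_⟩
  rw [Nat.card_congr e, Nat.card_sum]
  push_cast
  rw [(hF m).2, (hG m).2, map_add]

open Classical in
/-- The natural numbers with weight `n ↦ k * n + c` (`k > 0`). -/
theorem HasGS.nat_mul_add (k c : ℕ) (hk : 0 < k) :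
    HasGS (fun n : ℕ => k * n + c) (PowerSeries.mk fun m => if ∃ n, k * n + c = m then 1 else 0) := by
  intro m
  rw [PowerSeries.coeff_mk]
  have hsub : Subsingleton {n : ℕ // k * n + c = m} := by
    constructor
    rintro ⟨a, ha⟩ ⟨b, hb⟩
    have : k * a = k * b := by omega
    exact Subtype.ext (Nat.eq_of_mul_eq_mul_left hk this)
  refine ⟨Finite.of_subsingleton, ?_⟩
  split_ifs with h
  · obtain ⟨n, hn⟩ := h
    have : Nonempty {n : ℕ // k * n + c = m} := ⟨⟨n, hn⟩⟩
    rw [Nat.card_unique]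
    rfl
  · have : IsEmpty {n : ℕ // k * n + c = m} := ⟨fun n => h ⟨n.1, n.2⟩⟩
    simp

open Classical in
theorem HasGS.nat : HasGS (fun n : ℕ => n) (PowerSeries.mk 1) := by
  have h := HasGS.nat_mul_add 1 0 one_pos
  have : (PowerSeries.mk fun m => if ∃ n, 1 * n + 0 = m then (1 : ℤ) else 0) = PowerSeries.mk 1 := by
    ext m
    simp
  rw [this] at h
  simpa using h

theorem HasGS.unit (c : ℕ) : HasGS (fun _ : Unit => c) ((X : PowerSeries ℤ) ^ c) := by
  classical
  intro m
  rw [coeff_X_pow]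
  refine ⟨inferInstance, ?_⟩
  split_ifs with h
  · have : Nonempty {n : Unit // c = m} := ⟨⟨(), h.symm⟩⟩
    rw [Nat.card_unique]
    rfl
  · have : IsEmpty {n : Unit // c = m} := ⟨fun n => h n.2.symm⟩
    simp

open Classical in
/-- even numbers: `∑ t^(2n) = E` with `(1 - t^2) E = 1`. -/
theorem HasGS.even : ∃ E : PowerSeries ℤ, HasGS (fun n : ℕ => 2 * n) E ∧ E * (1 - X ^ 2) = 1 := by
  refine ⟨_, by simpa using HasGS.nat_mul_add 2 0 (by norm_num), ?_⟩
  ext m
  rw [mul_sub, mul_one, map_sub, coeff_mul_X_pow', coeff_mk, coeff_one]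
  by_cases hm : m = 0
  · subst hm
    simp
  · simp only [hm, if_false]
    by_cases h2 : 2 ≤ m
    · simp only [h2, if_true, coeff_mk]
      have : (∃ n, 2 * n = m) ↔ (∃ n, 2 * n = m - 2) := by
        constructor
        · rintro ⟨n, hn⟩
          exact ⟨n - 1, by omega⟩
        · rintro ⟨n, hn⟩
          exact ⟨n + 1, by omega⟩
      simp [this]
    · have hm1 : m = 1 := by omega
      subst hm1
      simp

end Pool.Agent.Lib.MP_3885fd_co
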