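import Pool.Agent.Lib.MP_3885fd_co.Count

/-! The equivariant `H*`-series of the example. -/

set_option autoImplicit false

open PowerSeries

namespace Pool.Agent.Lib.MP_3885fd_co

theorem charpolyRev_one : (ex.rho 1).charpolyRev = (1 - Polynomial.X) ^ 6 := by
  have h : ex.rho 1 = 1 := by
    ext i j
    simp [InvariantLatticePolytope.rho, ex, AffineEquiv.one_def, Matrix.one_apply, Pi.single_apply]
  rw [h, Matrix.charpolyRev]
  have : (1 - (Polynomial.X : Polynomial ℤ) • (1 : Matrix (Fin 6) (Fin 6) ℤ).map Polynomial.C) =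
      (1 - Polynomial.X : Polynomial ℤ) • (1 : Matrix (Fin 6) (Fin 6) (Polynomial ℤ)) := by
    ext1 i j
    by_cases hij : i = j
    · subst hij
      simp
    · simp [hij]
  rw [this, Matrix.det_smul, Matrix.det_one]
  simp

theorem rho_neg_one : ex.rho (-1) =
    !![-1, -3, -1, -1, -1, 0; 0, 1, 0, 0, 0, 0; 0, 0, 1, 0, 0, 0; 0, 0, 0, 1, 0, 0;
      0, 0, 0, 0, 1, 0; 0, 0, 0, 0, 0, 1] := by
  have h1 : ex.act (-1) = tau := exAct_neg_one
  rw [InvariantLatticePolytope.rho, h1]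
  ext i j
  rw [LinearMap.toMatrix'_apply]
  change lin (Pi.single j 1) i = _
  rw [lin_apply]
  fin_cases i <;> fin_cases j <;> simp

theorem charpolyRev_neg_one :
    (ex.rho (-1)).charpolyRev = (1 + Polynomial.X) * (1 - Polynomial.X) ^ 5 := by
  rw [rho_neg_one, Matrix.charpolyRev, Matrix.det_of_isUpperTriangular]
  · simp [Fin.prod_univ_succ]
    left
    ring
  · intro i j hij
    fin_cases i <;> fin_cases j <;> simp at hij ⊢

theorem mk_eq_of_gs {α : Type} {w : α → ℕ} {F : PowerSeries ℤ} (h : HasGS w F) (f : ℕ → ℤ)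
    (hf : ∀ m, f m = ((Nat.card {a // w a = m} : ℕ) : ℤ)) : PowerSeries.mk f = F := by
  ext m
  rw [coeff_mk, hf, (h m).2]

theorem HStar_one : ex.HStar 1 = 1 + X + 2 * X ^ 3 := by
  have h := mk_eq_of_gs gs_cone1 (fun m => ex.chi m 1) chi_one
  have hS : S * (1 - X) = 1 := PowerSeries.mk_one_mul_one_sub_eq_one ℤ
  rw [InvariantLatticePolytope.HStar, h, charpolyRev_one]
  push_cast
  have h7 : (S * (S * S)) * (S * (S * (S * S))) * (1 - X) ^ 7 = 1 := by
    calc (S * (S * S)) * (S * (S * (S * S))) * (1 - X) ^ 7 = (S * (1 - X)) ^ 7 := by ring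
      _ = 1 := by rw [hS, one_pow]
  linear_combination (1 + X + 2 * X ^ 3) * h7

theorem HStar_neg_one : ex.HStar (-1) = 1 - X + 2 * X ^ 2 := by
  obtain ⟨E, hE, hE2⟩ := HasGS.even
  have h := mk_eq_of_gs (gs_cone2 hE) (fun m => ex.chi m (-1)) chi_neg_one
  have hS : S * (1 - X) = 1 := PowerSeries.mk_one_mul_one_sub_eq_one ℤ
  rw [InvariantLatticePolytope.HStar, h, charpolyRev_neg_one]
  push_cast
  have h4 : (S * (S * (S * S))) * (1 - X) ^ 4 = 1 := by
    calc (S * (S * (S * S))) * (1 - X) ^ 4 = (S * (1 - X)) ^ 4 := by ring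
      _ = 1 := by rw [hS, one_pow]
  have h2 : (E * E) * ((1 - X) ^ 2 * (1 + X) ^ 2) = 1 := by
    calc (E * E) * ((1 - X) ^ 2 * (1 + X) ^ 2) = (E * (1 - X ^ 2)) ^ 2 := by ring
      _ = 1 := by rw [hE2, one_pow]
  have h24 : ((E * E) * (S * (S * (S * S)))) * ((1 - X) ^ 6 * (1 + X) ^ 2) = 1 := by
    calc ((E * E) * (S * (S * (S * S)))) * ((1 - X) ^ 6 * (1 + X) ^ 2)
        = ((E * E) * ((1 - X) ^ 2 * (1 + X) ^ 2)) * ((S * (S * (S * S))) * (1 - X) ^ 4) := by ring
      _ = 1 := by rw [h2, h4, one_mul]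
  linear_combination (1 - X + 2 * X ^ 2) * h24

theorem HStarCoeff_one (i : ℕ) : ex.HStarCoeff i 1 =
    if i = 0 then 1 else if i = 1 then 1 else if i = 3 then 2 else 0 := by
  rw [InvariantLatticePolytope.HStarCoeff, HStar_one]
  have : (1 + X + 2 * X ^ 3 : PowerSeries ℤ) = 1 + X + C 2 * X ^ 3 := by simp
  rw [this]
  simp only [map_add, coeff_one, coeff_X, coeff_C_mul, coeff_X_pow]
  split_ifs <;> simp_all

theorem HStarCoeff_neg_one (i : ℕ) : ex.HStarCoeff i (-1) =
    if i = 0 then 1 else if i = 1 then -1 else if i = 2 then 2 else 0 := by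
  rw [InvariantLatticePolytope.HStarCoeff, HStar_neg_one]
  have : (1 - X + 2 * X ^ 2 : PowerSeries ℤ) = 1 - X + C 2 * X ^ 2 := by simp
  rw [this]
  simp only [map_add, map_sub, coeff_one, coeff_X, coeff_C_mul, coeff_X_pow]
  split_ifs <;> simp_all

theorem ex_polynomial : ex.HStarIsPolynomial := by
  refine (Set.finite_lt_nat 4).subset ?_
  intro i hi
  by_contra h
  apply hi
  funext g
  have h4 : ¬ i < 4 := h
  rcases Int.units_eq_one_or g with rfl | rfl
  · rw [HStarCoeff_one]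
    have h0 : i ≠ 0 := by omega
    have h1 : i ≠ 1 := by omega
    have h3 : i ≠ 3 := by omega
    simp [h0, h1, h3]
  · rw [HStarCoeff_neg_one]
    have h0 : i ≠ 0 := by omega
    have h1 : i ≠ 1 := by omega
    have h3 : i ≠ 2 := by omega
    simp [h0, h1, h3]

theorem ex_not_character : ¬ InvariantLatticePolytope.IsCharacter (ex.HStarCoeff 2) := by
  rintro ⟨n, σ, hσ⟩
  have h1 := hσ 1
  have h2 := hσ (-1)
  rw [HStarCoeff_one] at h1
  rw [HStarCoeff_neg_one] at h2
  simp only [map_one] at h1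
  rw [LinearMap.trace_one] at h1
  simp at h1
  subst h1
  have : σ (-1) = 0 := by
    ext x i
    exact i.elim0
  rw [this, map_zero] at h2
  norm_num at h2

theorem ex_not_effective : ¬ ex.HStarIsEffective := fun h => ex_not_character (h 2)

end Pool.Agent.Lib.MP_3885fd_co
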